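import Pool.Agent.H681R3.DS.Stmts

set_option autoImplicit false

/-! Second version: slower growth, `m (i+1) >= 100 (i+1)^gamma m i`. -/

namespace Pool.Agent.H681R3.DS2
open Finset
open Pool.Agent.Results.MP_eb9c50_an.SidonNearZero
open Pool.Agent.H681R3.DS (Bdd Schur diffSet mat sg ex)

/-- plain growth -/
def Fast (m : ℕ → ℤ) : Prop := 0 < m 0 ∧ ∀ i, 100 * m i ≤ m (i + 1)

/-- growth with a level function -/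
def FastL (L : ℕ → ℕ) (m : ℕ → ℤ) : Prop := 0 < m 0 ∧ ∀ i, 100 * 40 ^ (L i) * m i ≤ m (i + 1)

/-- the hierarchical colouring -/
def TaskHier : Prop := ∀ (L : ℕ → ℕ) (ρ : ℝ), 0 < ρ → ∃ K : ℕ, 1 ≤ K ∧
  ∀ (a : ℕ → ℕ → ℂ) (C : ℝ), (∀ i, a i i = 0) → Bdd a C →
  ∃ c : ℕ → ℕ → Fin K, ∀ p : ℕ,
    Bdd (fun i j => if p ≤ L i ∧ p ≤ L j ∧ ∀ q < p, c q i = c q j then a i j else 0)
      (ρ ^ p * C)

/-- pairs that are never separated are summable -/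
def TaskU : Prop := ∀ (L : ℕ → ℕ) (ρ : ℝ), 0 < ρ → Summable (fun i => ρ ^ (L i)) →
  ∀ (K : ℕ) (a : ℕ → ℕ → ℂ) (C : ℝ) (c : ℕ → ℕ → Fin K),
  (∀ p : ℕ, Bdd (fun i j => if p ≤ L i ∧ p ≤ L j ∧ ∀ q < p, c q i = c q j then a i j else 0)
      (ρ ^ p * C)) →
  Summable (fun P : ℕ × ℕ =>
    if ∀ q ≤ min (L P.1) (L P.2), c q P.1 = c q P.2 then ‖a P.1 P.2‖ else 0)

def TaskDist : Prop := ∀ m : ℕ → ℤ, Fast m → ∀ i j k l : ℕ, i ≠ j → m i - m j = m k - m l →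
  i = k ∧ j = l

def TaskNested : Prop := ∀ (L : ℕ → ℕ) (m : ℕ → ℤ), FastL L m → ∀ θ : ℕ → ℝ, ∃ a : ℝ,
  ∀ i : ℕ, ∃ (k : ℤ) (e : ℝ),
  0 ≤ e ∧ e ≤ 1 / (50 * 40 ^ (L i)) ∧ (m i : ℝ) * a = θ i + k + e

def TaskPhase : Prop := ∀ (L : ℕ → ℕ) (m : ℕ → ℤ), FastL L m → ∀ (K : ℕ) (c : ℕ → ℕ → Fin K),
  ∃ a : Fin K → ℝ, ∀ (l : Fin K) (p i : ℕ), p ≤ L i →
    (c p i = l → ‖1 + ex (-(40 ^ p * m i * a l))‖ ≤ 1 / 4) ∧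
    (c p i ≠ l → ‖1 - ex (40 ^ p * m i * a l)‖ ≤ 1 / 4)

def TaskTrans : Prop := ∀ m : ℕ → ℤ, Fast m → ∀ f : C(UnitAddCircle, ℂ), f ∈ CE (diffSet m) →
  Bdd (mat m f) (16 * ‖f‖)

def TaskMult : Prop := ∀ m : ℕ → ℤ, Fast m → ∀ f : C(UnitAddCircle, ℂ), f ∈ CE (diffSet m) →
  ∀ φ : ℕ → ℕ → ℂ, Schur φ → ∀ D : ℝ, Bdd (fun i j => φ i j * mat m f i j) D →
  ∃ g : C(UnitAddCircle, ℂ), g ∈ CE (diffSet m) ∧ ‖g‖ ≤ D ∧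
    ∀ i j, i ≠ j → fourierCoeff g (m i - m j) = φ i j * fourierCoeff f (m i - m j)

def TaskNS : Prop := ∀ m : ℕ → ℤ, Fast m → ¬ IsSidon (diffSet m)

def TaskSub : Prop := ∀ m : ℕ → ℤ, Fast m → ∀ (S : Finset UnitAddCircle) (δ : ℝ), 0 < δ →
  ∃ m' : ℕ → ℤ, Fast m' ∧ diffSet m' ⊆ diffSet m ∩ BohrSet S δ

end Pool.Agent.H681R3.DS2
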