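import Pool.Agent.H681R3.DS.Asm3
import Pool.Agent.H681R3.DS2.Defs

set_option autoImplicit false

namespace Pool.Agent.H681R3.DS2
open Finset AddCircle
open Pool.Agent.Results.MP_eb9c50_an.SidonNearZero
open Pool.Agent.H681R3.DS (Bdd Schur diffSet mat sg ex ex_norm ex_add ex_pow fou blocks prod_ind
  TaskBlock TaskInv hh hh_norm hh_fc)
open Pool.Agent.H681R3

section
variable {K : ℕ} (L : ℕ → ℕ) (m : ℕ → ℤ) (c : ℕ → ℕ → Fin K) (α : Fin K → ℝ)

noncomputable def uu (p : ℕ) (l : Fin K) (i : ℕ) : ℂ :=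
  if p ≤ L i ∧ c p i = l then -ex (-(40 ^ p * m i * α l)) else 1

noncomputable def vv (p : ℕ) (l : Fin K) (j : ℕ) : ℂ :=
  if p ≤ L j ∧ c p j ≠ l then ex (40 ^ p * m j * α l) else 1

noncomputable def rr (p : ℕ) (l : Fin K) (i : ℕ) : ℂ := if p ≤ L i ∧ c p i = l then 1 else 0
noncomputable def ss (p : ℕ) (l : Fin K) (j : ℕ) : ℂ := if p ≤ L j ∧ c p j ≠ l then 1 else 0

noncomputable def ph (p : ℕ) (l : Fin K) (i j : ℕ) : ℂ :=
  (∏ q ∈ range p, (if c q i = c q j then (1 : ℂ) else 0)) *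
    ((rr L c p l i * ss L c p l j) * (1 / (1 + uu L m c α p l i * vv L m c α p l j)))

def PhaseOK : Prop := ∀ (l : Fin K) (p i : ℕ), p ≤ L i →
    (c p i = l → ‖1 + ex (-(40 ^ p * m i * α l))‖ ≤ 1 / 4) ∧
    (c p i ≠ l → ‖1 - ex (40 ^ p * m i * α l)‖ ≤ 1 / 4)

theorem uu_norm (p : ℕ) (l : Fin K) (i : ℕ) : ‖uu L m c α p l i‖ = 1 := by
  unfold uu; split_ifs
  · rw [norm_neg, ex_norm]
  · simp

theorem vv_norm (p : ℕ) (l : Fin K) (i : ℕ) : ‖vv L m c α p l i‖ = 1 := by
  unfold vv; split_ifs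
  · rw [ex_norm]
  · simp

theorem uu_close (h : PhaseOK L m c α) (p : ℕ) (l : Fin K) (i : ℕ) :
    ‖1 - uu L m c α p l i‖ ≤ 1 / 4 := by
  unfold uu; split_ifs with h1
  · rw [sub_neg_eq_add]; exact (h l p i h1.1).1 h1.2
  · norm_num

theorem vv_close (h : PhaseOK L m c α) (p : ℕ) (l : Fin K) (i : ℕ) :
    ‖1 - vv L m c α p l i‖ ≤ 1 / 4 := by
  unfold vv; split_ifs with h1
  · exact (h l p i h1.1).2 h1.2
  · norm_num

theorem rr_norm (p : ℕ) (l : Fin K) (i : ℕ) : ‖rr L c p l i‖ ≤ 1 := by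
  unfold rr; split_ifs <;> simp

theorem ss_norm (p : ℕ) (l : Fin K) (i : ℕ) : ‖ss L c p l i‖ ≤ 1 := by
  unfold ss; split_ifs <;> simp

theorem ph_schur (hB : TaskBlock) (hI : TaskInv) (h : PhaseOK L m c α) (p : ℕ) (l : Fin K) :
    Schur (ph L m c α p l) := by
  have h1 := (blocks hB c p).mul ((DS.Schur.rank (rr_norm L c p l) (ss_norm L c p l)).mul
    (hI (uu L m c α p l) (vv L m c α p l) (uu_norm L m c α p l) (vv_norm L m c α p l)
      (uu_close L m c α h p l) (vv_close L m c α h p l)))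
  exact h1.congr (fun i j => rfl)

theorem ph_bdd (hI : TaskInv) (h : PhaseOK L m c α) (p : ℕ) (l : Fin K)
    (a : ℕ → ℕ → ℂ) (D : ℝ)
    (ha : Bdd (fun i j => if p ≤ L i ∧ p ≤ L j ∧ ∀ q < p, c q i = c q j then a i j else 0) D) :
    Bdd (fun i j => ph L m c α p l i j * a i j) D := by
  have h1 := ((DS.Schur.rank (rr_norm L c p l) (ss_norm L c p l)).mul
    (hI (uu L m c α p l) (vv L m c α p l) (uu_norm L m c α p l) (vv_norm L m c α p l)
      (uu_close L m c α h p l) (vv_close L m c α h p l))) _ D ha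
  refine h1.congr (fun i j => ?_)
  unfold ph
  rw [prod_ind]
  by_cases hi : p ≤ L i ∧ c p i = l
  · by_cases hj : p ≤ L j ∧ c p j ≠ l
    · by_cases hq : ∀ q < p, c q i = c q j
      · rw [if_pos ⟨hi.1, hj.1, hq⟩, if_pos hq]; ring
      · rw [if_neg (fun h' => hq h'.2.2), if_neg hq]; ring
    · have : ss L c p l j = 0 := by unfold ss; rw [if_neg hj]
      simp [this]
  · have : rr L c p l i = 0 := by unfold rr; rw [if_neg hi]
    simp [this]

/-- the key identity -/
theorem key_id (h : PhaseOK L m c α) (p : ℕ) (l : Fin K) (i j : ℕ) :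
    (1 - ex (-(((m i - m j : ℤ) : ℝ) * α l)) ^ (40 ^ p)) * ph L m c α p l i j =
      if p ≤ L i ∧ p ≤ L j ∧ (∀ q < p, c q i = c q j) ∧ c p i = l ∧ c p j ≠ l then 1 else 0 := by
  unfold ph
  rw [prod_ind]
  by_cases hi : p ≤ L i ∧ c p i = l
  · by_cases hj : p ≤ L j ∧ c p j ≠ l
    · by_cases hq : ∀ q < p, c q i = c q j
      · rw [if_pos hq, if_pos ⟨hi.1, hj.1, hq, hi.2, hj.2⟩]
        have e1 : rr L c p l i = 1 := by unfold rr; rw [if_pos hi]
        have e2 : ss L c p l j = 1 := by unfold ss; rw [if_pos hj]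
        have e3 : uu L m c α p l i = -ex (-(40 ^ p * m i * α l)) := by unfold uu; rw [if_pos hi]
        have e4 : vv L m c α p l j = ex (40 ^ p * m j * α l) := by unfold vv; rw [if_pos hj]
        have e5 : ex (-(((m i - m j : ℤ) : ℝ) * α l)) ^ (40 ^ p) =
            ex (-(40 ^ p * m i * α l)) * ex (40 ^ p * m j * α l) := by
          rw [ex_pow, ← ex_add]
          congr 1
          push_cast
          ring
        have e6 : 1 + uu L m c α p l i * vv L m c α p l j ≠ 0 := by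
          intro h0
          have h1 := uu_close L m c α h p l i
          have h2 := vv_close L m c α h p l j
          have h3 : ‖(2 : ℂ)‖ ≤ 1 / 4 + 1 / 4 := by
            have : (2 : ℂ) = (1 - uu L m c α p l i) + uu L m c α p l i * (1 - vv L m c α p l j) := by
              linear_combination h0
            rw [this]
            refine (norm_add_le _ _).trans (add_le_add h1 ?_)
            rw [norm_mul, uu_norm, one_mul]
            exact h2
          rw [Complex.norm_two] at h3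
          norm_num at h3
        rw [e1, e2, e5]
        have e7 : 1 - ex (-(40 ^ p * m i * α l)) * ex (40 ^ p * m j * α l) =
            1 + uu L m c α p l i * vv L m c α p l j := by rw [e3, e4]; ring
        rw [e7]
        field_simp
      · rw [if_neg hq, if_neg (fun h' => hq h'.2.2.1)]; ring
    · have : ss L c p l j = 0 := by unfold ss; rw [if_neg hj]
      have hn : ¬ (p ≤ L i ∧ p ≤ L j ∧ (∀ q < p, c q i = c q j) ∧ c p i = l ∧ c p j ≠ l) :=
        fun h' => hj ⟨h'.2.1, h'.2.2.2.2⟩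
      rw [this, if_neg hn]; ring
  · have : rr L c p l i = 0 := by unfold rr; rw [if_neg hi]
    have hn : ¬ (p ≤ L i ∧ p ≤ L j ∧ (∀ q < p, c q i = c q j) ∧ c p i = l ∧ c p j ≠ l) :=
      fun h' => hi ⟨h'.1, h'.2.2.2.1⟩
    rw [this, if_neg hn]; ring

end

end Pool.Agent.H681R3.DS2
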