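import Pool.Agent.H681R3.DS2.Defs

set_option autoImplicit false

/-! Differences of a fast growing sequence are distinct. -/

namespace Pool.Agent.H681R3.DS2.TDist

open Pool.Agent.H681R3.DS (Bdd Schur diffSet mat sg ex TaskOneStep)

theorem step {m : ℕ → ℤ} (hm : Fast m) (i : ℕ) (_ : 0 < m i) : 100 * m i ≤ m (i + 1) :=
  hm.2 i

theorem pos {m : ℕ → ℤ} (hm : Fast m) (i : ℕ) : 0 < m i := by
  induction i with
  | zero => exact hm.1
  | succ i ih =>
    have := step hm i ih
    linarith

theorem four {m : ℕ → ℤ} (hm : Fast m) {i j : ℕ} (h : i < j) : 4 * m i ≤ m j := by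
  induction j with
  | zero => omega
  | succ j ih =>
    have h1 := step hm j (pos hm j)
    have h2 := pos hm j
    rcases Nat.lt_or_ge i j with h3 | h3
    · have := ih h3
      linarith
    · have : i = j := by omega
      subst this
      linarith

theorem pair {m : ℕ → ℤ} (hm : Fast m) {a b c d : ℕ} (hab : b ≤ a) (hcd : d ≤ c)
    (h : m a + m b = m c + m d) : a = c ∧ b = d := by
  have hle : ∀ x y : ℕ, x ≤ y → m x ≤ m y := by
    intro x y hxy
    rcases hxy.lt_or_eq with h1 | h1
    · have := four hm h1
      have := pos hm x
      linarith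
    · rw [h1]
  have hinj : ∀ x y : ℕ, m x = m y → x = y := by
    intro x y hxy
    have := pos hm x
    have := pos hm y
    rcases Nat.lt_trichotomy x y with h1 | h1 | h1
    · have := four hm h1
      linarith
    · exact h1
    · have := four hm h1
      linarith
  have p1 := pos hm a
  have p2 := pos hm b
  have p3 := pos hm c
  have p4 := pos hm d
  have q1 := hle b a hab
  have q2 := hle d c hcd
  rcases Nat.lt_trichotomy a c with h1 | h1 | h1
  · have := four hm h1
    linarith
  · refine ⟨h1, hinj b d ?_⟩
    rw [h1] at h
    linarith
  · have := four hm h1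
    linarith

theorem t : TaskDist := by
  intro m hm i j k l hij h
  have h1 : m i + m l = m k + m j := by linarith
  rcases le_total l i with h2 | h2
  · rcases le_total j k with h3 | h3
    · have := pair hm h2 h3 h1
      exact ⟨this.1, this.2.symm⟩
    · have := pair hm h2 h3 (by linarith : m i + m l = m j + m k)
      exact absurd this.1 hij
  · rcases le_total j k with h3 | h3
    · have := pair hm h2 h3 (by linarith : m l + m i = m k + m j)
      exact absurd this.2 hij
    · have := pair hm h2 h3 (by linarith : m l + m i = m j + m k)
      exact ⟨this.2, this.1.symm⟩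

end Pool.Agent.H681R3.DS2.TDist
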