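import Pool.Agent.H681R3.DS2.Defs

/-! Project H681-DS, task Hier (helper862). -/

set_option autoImplicit false

namespace Pool.Agent.H681R3.DS2.THier
open Finset
open Pool.Agent.H681R3.DS (Bdd Schur diffSet mat sg ex TaskOneStep)

theorem bdd_trunc (L : ℕ → ℕ) {a : ℕ → ℕ → ℂ} {C : ℝ} (h : Bdd a C) (p : ℕ) :
    Bdd (fun i j => if p ≤ L i ∧ p ≤ L j then a i j else 0) C := by
  intro n z w hz hw
  have h1 := h n (fun i => if p ≤ L i then z i else 0) (fun j => if p ≤ L j then w j else 0)
    (fun i => by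
      show ‖if p ≤ L i then z i else 0‖ ≤ 1
      split_ifs
      · exact hz i
      · simp)
    (fun j => by
      show ‖if p ≤ L j then w j else 0‖ ≤ 1
      split_ifs
      · exact hw j
      · simp)
  refine le_trans (le_of_eq ?_) h1
  congr 1
  refine Finset.sum_congr rfl fun i _ => Finset.sum_congr rfl fun j _ => ?_
  by_cases hi : p ≤ L i <;> by_cases hj : p ≤ L j <;> simp [hi, hj]

theorem t (H : TaskOneStep) : TaskHier := by
  classical
  intro L ρ hρ
  obtain ⟨K, hK, hstep⟩ := H ρ hρ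
  refine ⟨K, hK, ?_⟩
  intro a C ha hb
  -- the colouring of one step
  have hex : ∀ (b : ℕ → ℕ → ℂ) (D : ℝ), ∃ c : ℕ → Fin K, (∀ i, b i i = 0) → Bdd b D →
      Bdd (fun i j => if c i = c j then b i j else 0) (ρ * D) := by
    intro b D
    by_cases h : (∀ i, b i i = 0) ∧ Bdd b D
    · obtain ⟨c, hc⟩ := hstep b D h.1 h.2
      exact ⟨c, fun _ _ => hc⟩
    · exact ⟨fun _ => ⟨0, hK⟩, fun h1 h2 => absurd ⟨h1, h2⟩ h⟩
  choose cc hcc using hex
  let b : ℕ → ℕ → ℕ → ℂ := fun p => Nat.rec (motive := fun _ => ℕ → ℕ → ℂ) a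
    (fun p bp => fun i j => if p + 1 ≤ L i ∧ p + 1 ≤ L j then
      (if cc bp (ρ ^ p * C) i = cc bp (ρ ^ p * C) j then bp i j else 0) else 0) p
  let c : ℕ → ℕ → Fin K := fun p => cc (b p) (ρ ^ p * C)
  have hb0 : b 0 = a := rfl
  have hbs : ∀ p, b (p + 1) = fun i j => if p + 1 ≤ L i ∧ p + 1 ≤ L j then
      (if c p i = c p j then b p i j else 0) else 0 := fun p => rfl
  have hmain : ∀ p, (∀ i, b p i i = 0) ∧ Bdd (b p) (ρ ^ p * C) := by
    intro p
    induction p with
    | zero =>
      refine ⟨fun i => ha i, ?_⟩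
      rw [pow_zero, one_mul]
      exact hb
    | succ p ih =>
      refine ⟨fun i => ?_, ?_⟩
      · rw [hbs]
        show (if p + 1 ≤ L i ∧ p + 1 ≤ L i then (if c p i = c p i then b p i i else 0) else 0) = 0
        rw [if_pos rfl, ih.1 i, ite_self]
      · rw [hbs]
        have h1 := bdd_trunc L (hcc (b p) (ρ ^ p * C) ih.1 ih.2) (p + 1)
        have e : ρ ^ (p + 1) * C = ρ * (ρ ^ p * C) := by ring
        rw [e]
        exact h1
  have hform : ∀ p i j, b p i j =
      if p ≤ L i ∧ p ≤ L j ∧ ∀ q < p, c q i = c q j then a i j else 0 := by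
    intro p
    induction p with
    | zero =>
      intro i j
      rw [hb0, if_pos]
      exact ⟨Nat.zero_le _, Nat.zero_le _, fun q hq => absurd hq (Nat.not_lt_zero _)⟩
    | succ p ih =>
      intro i j
      rw [hbs]
      show (if p + 1 ≤ L i ∧ p + 1 ≤ L j then (if c p i = c p j then b p i j else 0) else 0) = _
      rw [ih i j]
      by_cases h1 : p + 1 ≤ L i ∧ p + 1 ≤ L j
      · rw [if_pos h1]
        by_cases h2 : c p i = c p j
        · rw [if_pos h2]
          by_cases h3 : ∀ q < p, c q i = c q j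
          · rw [if_pos ⟨by omega, by omega, h3⟩, if_pos]
            refine ⟨h1.1, h1.2, fun q hq => ?_⟩
            rcases Nat.lt_succ_iff_lt_or_eq.1 hq with h | h
            · exact h3 q h
            · rw [h]; exact h2
          · rw [if_neg (fun h => h3 h.2.2), if_neg]
            exact fun h => h3 (fun q hq => h.2.2 q (by omega))
        · rw [if_neg h2, if_neg]
          exact fun h => h2 (h.2.2 p (by omega))
      · rw [if_neg h1, if_neg]
        exact fun h => h1 ⟨h.1, h.2.1⟩
  refine ⟨c, fun p => ?_⟩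
  have h := (hmain p).2
  have e : b p = fun i j => if p ≤ L i ∧ p ≤ L j ∧ ∀ q < p, c q i = c q j then a i j else 0 := by
    funext i j
    exact hform p i j
  rw [e] at h
  exact h

end Pool.Agent.H681R3.DS2.THier
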