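import Pool.Agent.H681R3.DS2.Defs

set_option autoImplicit false

/-! Project H681-DS, task TaskPhase (helper115). -/

namespace Pool.Agent.H681R3.DS2.TPhase
open Finset
open Pool.Agent.H681R3.DS (Bdd Schur diffSet mat sg ex TaskOneStep)

lemma ex_add (x y : ℝ) : ex (x + y) = ex x * ex y := by
  unfold ex
  rw [← Complex.exp_add]
  congr 1
  push_cast
  ring

lemma ex_int (n : ℤ) : ex (n : ℝ) = 1 := by
  unfold ex
  have h := Complex.exp_int_mul_two_pi_mul_I n
  rw [← h]
  congr 1
  push_cast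
  ring

lemma ex_neg_half : ex (-(1 / 2)) = -1 := by
  unfold ex
  have h : (2 * (Real.pi : ℂ) * Complex.I * ((-(1 / 2) : ℝ) : ℂ)) = -(Real.pi * Complex.I) := by
    push_cast
    ring
  rw [h, Complex.exp_neg, Complex.exp_pi_mul_I]
  norm_num

lemma ex_bound (t : ℝ) (h : |t| ≤ 1 / 78 + 1 / 50) : ‖1 - ex t‖ ≤ 1 / 4 := by
  have h1 : ex t = Complex.exp (Complex.I * ((2 * Real.pi * t : ℝ) : ℂ)) := by
    unfold ex
    congr 1
    push_cast
    ring
  rw [h1, norm_sub_rev]
  refine (Real.norm_exp_I_mul_ofReal_sub_one_le).trans ?_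
  rw [Real.norm_eq_abs, abs_mul, abs_of_pos (by positivity)]
  have h2 : Real.pi < 3.15 := Real.pi_lt_d2
  have h3 : 0 < Real.pi := Real.pi_pos
  calc 2 * Real.pi * |t| ≤ 2 * 3.15 * (1 / 78 + 1 / 50) := by
        apply mul_le_mul _ h (abs_nonneg _) (by norm_num)
        linarith
    _ ≤ 1 / 4 := by norm_num

/-- the number `θ` -/
noncomputable def th (L : ℕ → ℕ) {K : ℕ} (c : ℕ → ℕ → Fin K) (l : Fin K) (i : ℕ) : ℝ :=
  ∑ q ∈ range (L i + 1), if c q i = l then 1 / (2 * 40 ^ q) else 0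

/-- a general splitting: `40^p * sum_(q <= i) s_q/(2*40^q) = integer + s_p/2 + tail`. -/
lemma split (s : ℕ → Bool) (p i : ℕ) (hp : p ≤ i) :
    ∃ (N : ℤ) (t : ℝ), 0 ≤ t ∧ t ≤ 1 / 78 ∧
      (40 : ℝ) ^ p * (∑ q ∈ range (i + 1), if s q = true then 1 / (2 * 40 ^ q) else 0) =
        N + (if s p = true then 1 / 2 else 0) + t := by
  -- head
  have hhead : ∃ N : ℤ, (40 : ℝ) ^ p * (∑ q ∈ range p, if s q = true then 1 / (2 * 40 ^ q) else 0) = N := by
    refine ⟨∑ q ∈ range p, if s q = true then 20 * 40 ^ (p - q - 1) else 0, ?_⟩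
    rw [mul_sum]
    push_cast
    refine sum_congr rfl fun q hq => ?_
    have hq' : q < p := mem_range.1 hq
    split_ifs
    · have h1 : (40 : ℝ) ^ p = 40 ^ (p - q - 1) * 40 * 40 ^ q := by
        rw [mul_assoc, ← pow_succ', ← pow_add]
        congr 1
        omega
      rw [h1]
      have h2 : (40 : ℝ) ^ q ≠ 0 := by positivity
      field_simp
      norm_num
    · simp
  obtain ⟨N, hN⟩ := hhead
  -- tail
  have htail : ∀ k : ℕ, 0 ≤ (∑ r ∈ range k, if s (p + 1 + r) = true then (1 : ℝ) / (2 * 40 ^ (r + 1)) else 0) ∧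
      (∑ r ∈ range k, if s (p + 1 + r) = true then (1 : ℝ) / (2 * 40 ^ (r + 1)) else 0) ≤
        1 / 78 - 1 / (78 * 40 ^ k) := by
    intro k
    induction k with
    | zero => simp
    | succ k ih =>
      rw [sum_range_succ]
      have h40 : (0 : ℝ) < 40 ^ k := by positivity
      have hle : (if s (p + 1 + k) = true then (1 : ℝ) / (2 * 40 ^ (k + 1)) else 0) ≤
          1 / (2 * 40 ^ (k + 1)) := by
        split_ifs
        · exact le_rfl
        · positivity
      have hge : 0 ≤ (if s (p + 1 + k) = true then (1 : ℝ) / (2 * 40 ^ (k + 1)) else 0) := by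
        split_ifs
        · positivity
        · exact le_rfl
      refine ⟨add_nonneg ih.1 hge, ?_⟩
      have h2 : (1 : ℝ) / 78 - 1 / (78 * 40 ^ k) + 1 / (2 * 40 ^ (k + 1)) = 1 / 78 - 1 / (78 * 40 ^ (k + 1)) := by
        rw [pow_succ]
        field_simp
        ring
      linarith [ih.2]
  refine ⟨N, ∑ r ∈ range (i - p), if s (p + 1 + r) = true then (1 : ℝ) / (2 * 40 ^ (r + 1)) else 0,
    (htail _).1, ?_, ?_⟩
  · refine (htail _).2.trans ?_
    have : (0 : ℝ) ≤ 1 / (78 * 40 ^ (i - p)) := by positivity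
    linarith
  · have hi : i + 1 = p + 1 + (i - p) := by omega
    rw [hi, sum_range_add, sum_range_succ, mul_add, mul_add, hN, mul_sum]
    congr 1
    · congr 1
      split_ifs
      · field_simp
      · simp
    · refine sum_congr rfl fun r _ => ?_
      split_ifs
      · have h1 : (40 : ℝ) ^ (p + 1 + r) = 40 ^ p * 40 ^ (r + 1) := by
          rw [← pow_add]
          congr 1
          omega
        rw [h1]
        field_simp
      · simp

theorem t : TaskNested → TaskPhase := by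
  intro hN L m hm K c
  choose a ha using fun l : Fin K => hN L m hm (th L c l)
  refine ⟨a, fun l p i hpi => ?_⟩
  obtain ⟨k, e, he0, he1, hk⟩ := ha l i
  obtain ⟨N, t, ht0, ht1, hsum⟩ := split (fun q => decide (c q i = l)) p (L i) hpi
  have hth : (40 : ℝ) ^ p * th L c l i = N + (if c p i = l then 1 / 2 else 0) + t := by
    unfold th
    simpa using hsum
  have he2 : (40 : ℝ) ^ p * e ≤ 1 / 50 := by
    have h1 : (40 : ℝ) ^ p ≤ 40 ^ (L i) := pow_le_pow_right₀ (by norm_num) hpi
    calc (40 : ℝ) ^ p * e ≤ 40 ^ (L i) * (1 / (50 * 40 ^ (L i))) :=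
          mul_le_mul h1 he1 he0 (by positivity)
      _ = 1 / 50 := by
          have : (40 : ℝ) ^ (L i) ≠ 0 := by positivity
          field_simp
  have he3 : 0 ≤ (40 : ℝ) ^ p * e := by positivity
  have hmain : (40 : ℝ) ^ p * m i * a l =
      ((N + 40 ^ p * k : ℤ) : ℝ) + ((if c p i = l then 1 / 2 else 0) + (t + 40 ^ p * e)) := by
    rw [mul_assoc, hk, mul_add, mul_add, hth]
    push_cast
    ring
  constructor
  · intro hc
    rw [hmain, if_pos hc]
    have h1 : -(((N + 40 ^ p * k : ℤ) : ℝ) + (1 / 2 + (t + 40 ^ p * e))) =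
        ((-(N + 40 ^ p * k) : ℤ) : ℝ) + (-(1 / 2) + (-(t + 40 ^ p * e))) := by
      push_cast
      ring
    rw [h1, ex_add, ex_int, one_mul, ex_add, ex_neg_half]
    have h2 := ex_bound (-(t + 40 ^ p * e)) (by
      rw [abs_neg, abs_of_nonneg (by linarith)]
      linarith)
    have h3 : (1 : ℂ) + -1 * ex (-(t + 40 ^ p * e)) = 1 - ex (-(t + 40 ^ p * e)) := by ring
    rw [h3]
    exact h2
  · intro hc
    rw [hmain, if_neg hc, zero_add, ex_add, ex_int, one_mul]
    exact ex_bound _ (by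
      rw [abs_of_nonneg (by linarith)]
      linarith)

end Pool.Agent.H681R3.DS2.TPhase
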