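import Pool.Agent.H681R3.DS2.Defs

set_option autoImplicit false

/-! Bohr neighbourhoods contain the difference set of a subsequence. -/

namespace Pool.Agent.H681R3.DS2.TSub

open Pool.Agent.Results.MP_eb9c50_an.SidonNearZero
open Filter Topology

theorem fast_pos {m : ℕ → ℤ} (hm : Fast m) : ∀ i, 0 < m i := by
  intro i
  induction i with
  | zero => exact hm.1
  | succ i ih =>
    refine lt_of_lt_of_le ?_ (hm.2 i)
    positivity

theorem fast_step {m : ℕ → ℤ} (hm : Fast m) (i : ℕ) : m i ≤ m (i + 1) := by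
  refine le_trans ?_ (hm.2 i)
  have h1 := fast_pos hm i
  linarith

theorem fast_mono {m : ℕ → ℤ} (hm : Fast m) : Monotone m :=
  monotone_nat_of_le_succ (fast_step hm)

theorem fast_sub {m : ℕ → ℤ} (hm : Fast m) {ψ : ℕ → ℕ} (hψ : StrictMono ψ) :
    Fast (fun k => m (ψ k)) := by
  refine ⟨fast_pos hm _, fun k => ?_⟩
  have h1 : k ≤ ψ k := hψ.id_le k
  have h2 : ψ k + 1 ≤ ψ (k + 1) := hψ (Nat.lt_succ_self k)
  calc 100 * m (ψ k) ≤ m (ψ k + 1) := hm.2 (ψ k)
    _ ≤ m (ψ (k + 1)) := fast_mono hm h2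

theorem t : TaskSub := by
  intro m hm S δ hδ
  obtain ⟨a, φ, hφ, hlim⟩ := CompactSpace.tendsto_subseq
    (fun (n : ℕ) (a : S) => m n • (a : UnitAddCircle))
  have hc : CauchySeq ((fun (n : ℕ) (a : S) => m n • (a : UnitAddCircle)) ∘ φ) :=
    hlim.cauchySeq
  obtain ⟨N, hN⟩ := Metric.cauchySeq_iff.1 hc δ hδ
  have hψ : StrictMono (fun k => φ (N + k)) := fun i j hij => hφ (by omega)
  refine ⟨fun k => m (φ (N + k)), fast_sub hm hψ, ?_⟩
  rintro k ⟨i, j, hij, rfl⟩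
  refine ⟨⟨φ (N + i), φ (N + j), fun h => hij (hψ.injective h), rfl⟩, ?_⟩
  intro x hx
  have h1 := hN (N + i) (by omega) (N + j) (by omega)
  have h2 := (dist_pi_lt_iff hδ).1 h1 ⟨x, hx⟩
  rw [dist_eq_norm] at h2
  rw [sub_smul]
  exact h2

end Pool.Agent.H681R3.DS2.TSub
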