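import Pool.Agent.H681R3.DS2.Defs

/-! Project H681-DS, task TaskTrans (helper545): Riesz products. -/

set_option autoImplicit false

namespace Pool.Agent.H681R3.DS2.TTrans

open Finset MeasureTheory AddCircle
open Pool.Agent.H681R3.DS (Bdd Schur diffSet mat sg ex TaskOneStep)
open Pool.Agent.Results.MP_eb9c50_an.SidonNearZero
open scoped ComplexConjugate

/-! ### arithmetic -/

theorem fast_pos {m : ℕ → ℤ} (hm : Fast m) : ∀ i, 0 < m i ∧ 4 * m i ≤ m (i + 1) := by
  intro i
  have key : ∀ j, 0 < m j → 4 * m j ≤ m (j + 1) := by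
    intro j hj
    have h2 := hm.2 j
    linarith
  induction i with
  | zero => exact ⟨hm.1, key 0 hm.1⟩
  | succ i ih =>
    have h1 : 0 < m (i + 1) := by linarith [ih.1, ih.2]
    exact ⟨h1, key _ h1⟩

theorem sum_lt {m : ℕ → ℤ} (hm : Fast m) : ∀ N, 3 * ∑ i ∈ range N, m i < m N := by
  intro N
  induction N with
  | zero => simpa using hm.1
  | succ N ih =>
    rw [sum_range_succ]
    have := (fast_pos hm N).2
    linarith

theorem diss {m : ℕ → ℤ} (hm : Fast m) (c : ℕ → ℤ) (hc : ∀ i, |c i| ≤ 3) :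
    ∀ N, ∑ i ∈ range N, c i * m i = 0 → ∀ i < N, c i = 0 := by
  intro N
  induction N with
  | zero => intro _ i hi; omega
  | succ N ih =>
    intro h
    rw [sum_range_succ] at h
    have h1 : |∑ i ∈ range N, c i * m i| ≤ 3 * ∑ i ∈ range N, m i := by
      rw [mul_sum]
      refine (abs_sum_le_sum_abs _ _).trans (sum_le_sum fun i _ => ?_)
      rw [abs_mul, abs_of_pos (fast_pos hm i).1]
      exact mul_le_mul_of_nonneg_right (hc i) (fast_pos hm i).1.le
    have h2 : c N = 0 := by
      by_contra hne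
      have h3 : 1 ≤ |c N| := Int.one_le_abs hne
      have h4 : |∑ i ∈ range N, c i * m i| = |c N| * m N := by
        have : ∑ i ∈ range N, c i * m i = -(c N * m N) := by linarith
        rw [this, abs_neg, abs_mul, abs_of_pos (fast_pos hm N).1]
      have h5 := sum_lt hm N
      have h6 := (fast_pos hm N).1
      nlinarith
    rw [h2, zero_mul, add_zero] at h
    intro i hi
    rcases Nat.lt_succ_iff_lt_or_eq.1 hi with h' | h'
    · exact ih h i h'
    · rw [h']; exact h2

/-- extension by zero -/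
def ext0 {n : ℕ} (s : Fin n → ℤ) (i : ℕ) : ℤ := if h : i < n then s ⟨i, h⟩ else 0

theorem sum_ext0 {n : ℕ} (s : Fin n → ℤ) (m : ℕ → ℤ) (N : ℕ) (hN : n ≤ N) :
    ∑ i ∈ range N, ext0 s i * m i = ∑ i : Fin n, s i * m i := by
  have h1 : ∑ i : Fin n, s i * m i = ∑ i : Fin n, ext0 s (i : ℕ) * m (i : ℕ) := by
    refine sum_congr rfl fun i _ => ?_
    simp [ext0]
  rw [h1, Fin.sum_univ_eq_sum_range (fun i => ext0 s i * m i) n]
  symm
  apply sum_subset
  · intro i hi
    rw [mem_range] at hi ⊢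
    omega
  · intro i _ hi
    rw [mem_range, not_lt] at hi
    simp [ext0, not_lt.2 hi]

theorem diss0 {m : ℕ → ℤ} (hm : Fast m) {n : ℕ} (s : Fin n → ℤ) (hs : ∀ i, |s i| ≤ 1)
    (h : ∑ i, s i * m i = 0) : s = 0 := by
  have hc : ∀ i, |ext0 s i| ≤ 3 := by
    intro i
    unfold ext0
    split_ifs with h'
    · exact (hs _).trans (by norm_num)
    · simp
  have h1 := diss hm (ext0 s) hc n (by rw [sum_ext0 s m n le_rfl]; exact h)
  funext i
  have := h1 i i.2
  simpa [ext0] using this

/-- the vector of a pair -/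
def sv {n : ℕ} (p : Fin n × Fin n) : Fin n → ℤ :=
  fun i => (if i = p.2 then 1 else 0) - (if i = p.1 then 1 else 0)

theorem diss2 {m : ℕ → ℤ} (hm : Fast m) {n : ℕ} (s : Fin n → ℤ) (hs : ∀ i, |s i| ≤ 1)
    (k l : ℕ) (hkl : k ≠ l) (h : -∑ i, s i * m i = m k - m l) :
    ∃ p : Fin n × Fin n, p.1 ≠ p.2 ∧ s = sv p := by
  set c : ℕ → ℤ := fun i => ext0 s i + ((if i = k then 1 else 0) - (if i = l then 1 else 0)) with hcdef
  have hc : ∀ i, |c i| ≤ 3 := by
    intro i
    have h0 : |ext0 s i| ≤ 1 := by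
      unfold ext0
      split_ifs with h'
      · exact hs _
      · simp
    rw [abs_le] at h0 ⊢
    simp only [hcdef]
    split_ifs <;> constructor <;> linarith [h0.1, h0.2]
  have hsum : ∑ i ∈ range (n + k + l + 1), c i * m i = 0 := by
    have e1 : ∀ i, c i * m i = ext0 s i * m i + ((if i = k then m i else 0) -
        (if i = l then m i else 0)) := by
      intro i
      simp only [hcdef]
      split_ifs <;> ring
    simp only [e1]
    rw [sum_add_distrib, sum_sub_distrib, sum_ext0 s m _ (by omega), sum_ite_eq', sum_ite_eq',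
      if_pos (by rw [mem_range]; omega), if_pos (by rw [mem_range]; omega), ← h]
    ring
  have h1 := diss hm c hc _ hsum
  have hk : k < n := by
    by_contra hk
    have h2 := h1 k (by omega)
    simp [hcdef, ext0, hk, hkl] at h2
  have hl : l < n := by
    by_contra hl
    have h2 := h1 l (by omega)
    simp [hcdef, ext0, hl, hkl.symm] at h2
  refine ⟨(⟨k, hk⟩, ⟨l, hl⟩), fun h' => hkl (by simpa using h'), ?_⟩
  funext i
  have h2 := h1 i (by have := i.2; omega)
  have h3 : ext0 s i = s i := by simp [ext0]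
  simp only [hcdef, h3] at h2
  simp only [sv, Fin.ext_iff]
  linarith

/-! ### Riesz products -/

theorem fourier_sum {ι : Type} (s : Finset ι) (g : ι → ℤ) (x : UnitAddCircle) :
    (fourier (∑ i ∈ s, g i) x : ℂ) = ∏ i ∈ s, fourier (g i) x := by
  classical
  induction s using Finset.induction_on with
  | empty => rw [sum_empty, prod_empty, fourier_zero]
  | insert a s ha ih => rw [sum_insert ha, prod_insert ha, fourier_add, ih]

/-- coefficients of the factors -/
noncomputable def cf (ζ : ℂ) (x : ℤ) : ℂ :=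
  if x = 1 then ζ / 2 else if x = -1 then conj ζ / 2 else 1

/-- the three exponents -/
def T3 : Finset ℤ := {-1, 0, 1}

theorem factor (ζ : ℂ) (k : ℤ) (t : UnitAddCircle) :
    ∑ x ∈ T3, cf ζ x * fourier (x * k) t = ((1 + (ζ * fourier k t).re : ℝ) : ℂ) := by
  have h1 : ∑ x ∈ T3, cf ζ x * fourier (x * k) t =
      conj ζ / 2 * fourier (-k) t + (1 + ζ / 2 * fourier k t) := by
    have e : (-1 : ℤ) ∉ ({0, 1} : Finset ℤ) := by decide
    have e' : (0 : ℤ) ∉ ({1} : Finset ℤ) := by decide
    have e'' : (-1 : ℤ) ≠ 1 := by decide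
    have e3 : (0 : ℤ) ≠ 1 := by decide
    have e4 : (0 : ℤ) ≠ -1 := by decide
    rw [T3, sum_insert e, sum_insert e', sum_singleton]
    simp only [cf, e'', e3, e4, if_true, if_false, neg_mul, one_mul, zero_mul, fourier_zero,
      mul_one]
  rw [h1, fourier_neg]
  push_cast
  rw [Complex.re_eq_add_conj, map_mul]
  ring

/-- the Riesz product -/
noncomputable def Rr (m : ℕ → ℤ) (ζ : ℕ → ℂ) (n : ℕ) (t : UnitAddCircle) : ℝ :=
  ∏ i : Fin n, (1 + (ζ i * fourier (m i) t).re)

theorem Rr_cont (m : ℕ → ℤ) (ζ : ℕ → ℂ) (n : ℕ) : Continuous (Rr m ζ n) := by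
  unfold Rr
  refine continuous_finsetProd _ fun i _ => ?_
  exact continuous_const.add
    (Complex.continuous_re.comp (continuous_const.mul (fourier (m i)).continuous))

theorem Rr_nonneg (m : ℕ → ℤ) (ζ : ℕ → ℂ) (hζ : ∀ i, ‖ζ i‖ ≤ 1) (n : ℕ) (t : UnitAddCircle) :
    0 ≤ Rr m ζ n t := by
  refine prod_nonneg fun i _ => ?_
  have h1 : ‖ζ i * fourier (m i) t‖ ≤ 1 := by
    rw [norm_mul, fourier_apply, Circle.norm_coe, mul_one]
    exact hζ i
  have h2 := Complex.abs_re_le_norm (ζ i * fourier (m i) t)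
  have h3 := neg_abs_le (ζ i * fourier (m i) t).re
  linarith

theorem Rr_expand (m : ℕ → ℤ) (ζ : ℕ → ℂ) (n : ℕ) (t : UnitAddCircle) :
    (Rr m ζ n t : ℂ) = ∑ s ∈ Fintype.piFinset (fun _ : Fin n => T3),
      (∏ i : Fin n, cf (ζ i) (s i)) * fourier (∑ i, s i * m i) t := by
  unfold Rr
  rw [Complex.ofReal_prod]
  have h1 : ∀ i : Fin n, ((1 + (ζ i * fourier (m i) t).re : ℝ) : ℂ) =
      ∑ x ∈ T3, cf (ζ i) x * fourier (x * m i) t := fun i => (factor _ _ _).symm
  rw [prod_congr rfl fun i _ => h1 i, Finset.prod_univ_sum]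
  refine sum_congr rfl fun s _ => ?_
  rw [prod_mul_distrib, fourier_sum]

theorem integ {g : UnitAddCircle → ℂ} (hg : Continuous g) :
    Integrable g (haarAddCircle : Measure UnitAddCircle) :=
  hg.integrable_of_hasCompactSupport (HasCompactSupport.of_compactSpace g)

theorem int_R (m : ℕ → ℤ) (ζ : ℕ → ℂ) (n : ℕ) (g : C(UnitAddCircle, ℂ)) :
    ∫ t, (Rr m ζ n t : ℂ) * g t ∂haarAddCircle =
      ∑ s ∈ Fintype.piFinset (fun _ : Fin n => T3),
        (∏ i : Fin n, cf (ζ i) (s i)) * fourierCoeff g (-∑ i, s i * m i) := by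
  simp_rw [Rr_expand, sum_mul]
  rw [integral_finsetSum]
  · refine sum_congr rfl fun s _ => ?_
    rw [fourierCoeff, neg_neg, ← integral_const_mul]
    refine integral_congr_ae (Filter.Eventually.of_forall fun t => ?_)
    simp only [smul_eq_mul]
    ring
  · intro s _
    exact integ (((continuous_const.mul (fourier _).continuous)).mul g.continuous)

theorem int_one {m : ℕ → ℤ} (hm : Fast m) (ζ : ℕ → ℂ) (n : ℕ) :
    ∫ t, Rr m ζ n t ∂(haarAddCircle : Measure UnitAddCircle) = 1 := by
  have h1 := int_R m ζ n (fourier 0)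
  have h2 : ∫ t, (Rr m ζ n t : ℂ) * (fourier 0 : C(UnitAddCircle, ℂ)) t ∂haarAddCircle =
      ((∫ t, Rr m ζ n t ∂(haarAddCircle : Measure UnitAddCircle) : ℝ) : ℂ) := by
    rw [← integral_complex_ofReal]
    refine integral_congr_ae (Filter.Eventually.of_forall fun t => ?_)
    simp only [fourier_zero, mul_one]
  rw [h2, sum_eq_single (0 : Fin n → ℤ)] at h1
  · have h3 : ((∫ t, Rr m ζ n t ∂(haarAddCircle : Measure UnitAddCircle) : ℝ) : ℂ) = 1 := by
      rw [h1, fourierCoeff_fourier]
      simp [cf]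
    exact_mod_cast h3
  · intro s hs hs0
    rw [fourierCoeff_fourier, Pi.single_eq_of_ne, mul_zero]
    intro h3
    apply hs0
    apply diss0 hm s
    · intro i
      have := Fintype.mem_piFinset.1 hs i
      simp only [T3, mem_insert, mem_singleton] at this
      rcases this with h | h | h <;> rw [h] <;> simp
    · linarith [h3]
  · intro h3
    exact absurd (Fintype.mem_piFinset.2 fun i => by simp [T3]) h3

theorem bound {m : ℕ → ℤ} (hm : Fast m) (ζ : ℕ → ℂ) (hζ : ∀ i, ‖ζ i‖ ≤ 1) (n : ℕ)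
    (f : C(UnitAddCircle, ℂ)) : ‖∫ t, (Rr m ζ n t : ℂ) * f t ∂haarAddCircle‖ ≤ ‖f‖ := by
  have h1 : ∫ t, ‖(Rr m ζ n t : ℂ) * f t‖ ∂haarAddCircle ≤
      ∫ t, ‖f‖ * Rr m ζ n t ∂(haarAddCircle : Measure UnitAddCircle) := by
    refine integral_mono ?_ ?_ fun t => ?_
    · exact (integ ((Complex.continuous_ofReal.comp (Rr_cont m ζ n)).mul f.continuous)).norm
    · exact (continuous_const.mul (Rr_cont m ζ n)).integrable_of_hasCompactSupport
        (HasCompactSupport.of_compactSpace _)
    · simp only [norm_mul, Complex.norm_real, Real.norm_eq_abs,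
        abs_of_nonneg (Rr_nonneg m ζ hζ n t)]
      rw [mul_comm]
      exact mul_le_mul_of_nonneg_right (f.norm_coe_le_norm t) (Rr_nonneg m ζ hζ n t)
  refine (norm_integral_le_integral_norm _).trans (h1.trans ?_)
  rw [integral_const_mul, int_one hm, mul_one]

/-! ### the quadratic form -/

theorem sv_inj {n : ℕ} {p q : Fin n × Fin n} (hp : p.1 ≠ p.2) (hq : q.1 ≠ q.2)
    (h : sv p = sv q) : p = q := by
  obtain ⟨k, l⟩ := p
  obtain ⟨k', l'⟩ := q
  have h1 := congrFun h k
  have h2 := congrFun h l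
  simp only [sv] at h1 h2 hp hq
  have e1 : k = k' := by
    by_contra hne
    simp only [hp, hne, if_true, if_false] at h1
    split_ifs at h1 <;> omega
  have e2 : l = l' := by
    by_contra hne
    simp only [Ne.symm hp, hne, if_true, if_false] at h2
    split_ifs at h2 <;> omega
  rw [e1, e2]

theorem form {m : ℕ → ℤ} (hm : Fast m) (f : C(UnitAddCircle, ℂ)) (hf : f ∈ CE (diffSet m))
    (n : ℕ) (z : ℕ → ℂ) :
    ∑ s ∈ Fintype.piFinset (fun _ : Fin n => T3),
      (∏ i : Fin n, cf (conj (z i)) (s i)) * fourierCoeff f (-∑ i, s i * m i) =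
    1 / 4 * ∑ i ∈ range n, ∑ j ∈ range n, mat m f i j * z i * conj (z j) := by
  classical
  set F : (Fin n → ℤ) → ℂ := fun s =>
    (∏ i : Fin n, cf (conj (z i)) (s i)) * fourierCoeff f (-∑ i, s i * m i) with hF
  set D : Finset (Fin n × Fin n) := univ.filter (fun p => p.1 ≠ p.2) with hD
  have h1 : ∑ s ∈ Fintype.piFinset (fun _ : Fin n => T3), F s = ∑ s ∈ D.image sv, F s := by
    symm
    apply sum_subset
    · intro s hs
      obtain ⟨p, hp, rfl⟩ := mem_image.1 hs
      rw [hD, mem_filter] at hp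
      rw [Fintype.mem_piFinset]
      intro i
      simp only [sv, T3, mem_insert, mem_singleton]
      by_cases a1 : i = p.2
      · by_cases a2 : i = p.1
        · exact absurd (a2.symm.trans a1) hp.2
        · rw [if_pos a1, if_neg a2]; simp
      · by_cases a2 : i = p.1
        · rw [if_neg a1, if_pos a2]; simp
        · rw [if_neg a1, if_neg a2]; simp
    · intro s hs hs'
      simp only [hF]
      have h2 : fourierCoeff f (-∑ i, s i * m i) = 0 := by
        apply hf
        rintro ⟨k, l, hkl, h3⟩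
        obtain ⟨p, hp, hsp⟩ := diss2 hm s (fun i => by
          have := Fintype.mem_piFinset.1 hs i
          simp only [T3, mem_insert, mem_singleton] at this
          rcases this with h | h | h <;> rw [h] <;> simp) k l hkl h3
        exact hs' (mem_image.2 ⟨p, by rw [hD, mem_filter]; exact ⟨mem_univ _, hp⟩, hsp.symm⟩)
      rw [h2, mul_zero]
  have h2 : ∑ s ∈ D.image sv, F s = ∑ p ∈ D, F (sv p) := by
    apply sum_image
    intro p hp q hq h
    rw [mem_coe, hD, mem_filter] at hp hq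
    exact sv_inj hp.2 hq.2 h
  have h3 : ∀ p ∈ D, F (sv p) = 1 / 4 * (mat m f p.1 p.2 * z p.1 * conj (z p.2)) := by
    intro p hp
    rw [hD, mem_filter] at hp
    obtain ⟨k, l⟩ := p
    have hkl : k ≠ l := hp.2
    have e1 : ∏ i : Fin n, cf (conj (z i)) (sv (k, l) i) = z k / 2 * (conj (z l) / 2) := by
      rw [Fintype.prod_eq_mul k l hkl]
      · have a1 : sv (k, l) k = -1 := by simp [sv, hkl]
        have a2 : sv (k, l) l = 1 := by simp [sv, hkl.symm]
        rw [a1, a2]
        have e'' : (-1 : ℤ) ≠ 1 := by decide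
        simp [cf, e'']
      · intro i hi
        have a1 : sv (k, l) i = 0 := by simp [sv, hi.1, hi.2]
        rw [a1]
        simp [cf]
    have e2 : -∑ i, sv (k, l) i * m i = m k - m l := by
      simp only [sv, sub_mul, ite_mul, one_mul, zero_mul, sum_sub_distrib, sum_ite_eq', mem_univ,
        if_true]
      simp
    have hkl' : (k : ℕ) ≠ (l : ℕ) := fun h => hkl (Fin.ext h)
    simp only [hF]
    rw [e1, e2]
    simp only [mat, if_neg hkl']
    ring
  rw [h1, h2, sum_congr rfl h3, ← mul_sum]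
  congr 1
  have h4 : ∑ i ∈ range n, ∑ j ∈ range n, mat m f i j * z i * conj (z j) =
      ∑ i : Fin n, ∑ j : Fin n, mat m f i j * z i * conj (z j) := by
    rw [← Fin.sum_univ_eq_sum_range (fun i => ∑ j ∈ range n, mat m f i j * z i * conj (z j)) n]
    refine sum_congr rfl fun i _ => ?_
    rw [← Fin.sum_univ_eq_sum_range (fun j => mat m f i j * z i * conj (z j)) n]
  rw [h4, hD, sum_filter, Fintype.sum_prod_type]
  refine sum_congr rfl fun i _ => sum_congr rfl fun j _ => ?_
  by_cases hij : i = j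
  · subst hij
    simp [mat]
  · simp [hij]

theorem quad {m : ℕ → ℤ} (hm : Fast m) (f : C(UnitAddCircle, ℂ)) (hf : f ∈ CE (diffSet m))
    (n : ℕ) (z : ℕ → ℂ) (hz : ∀ i, ‖z i‖ ≤ 1) :
    ‖∑ i ∈ range n, ∑ j ∈ range n, mat m f i j * z i * conj (z j)‖ ≤ 4 * ‖f‖ := by
  have h1 := bound hm (fun i => conj (z i)) (fun i => by rw [RCLike.norm_conj]; exact hz i) n f
  rw [int_R, form hm f hf n z, norm_mul] at h1
  norm_num at h1
  linarith

theorem quad2 {m : ℕ → ℤ} (hm : Fast m) (f : C(UnitAddCircle, ℂ)) (hf : f ∈ CE (diffSet m))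
    (n : ℕ) (z : ℕ → ℂ) (hz : ∀ i, ‖z i‖ ≤ 2) :
    ‖∑ i ∈ range n, ∑ j ∈ range n, mat m f i j * z i * conj (z j)‖ ≤ 16 * ‖f‖ := by
  have h1 := quad hm f hf n (fun i => z i / 2) (fun i => by
    rw [norm_div]
    have := hz i
    norm_num
    linarith)
  have h2 : ∑ i ∈ range n, ∑ j ∈ range n, mat m f i j * z i * conj (z j) =
      4 * ∑ i ∈ range n, ∑ j ∈ range n, mat m f i j * (z i / 2) * conj (z j / 2) := by
    rw [mul_sum]
    refine sum_congr rfl fun i _ => ?_
    rw [mul_sum]
    refine sum_congr rfl fun j _ => ?_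
    rw [map_div₀]
    have : (conj (2 : ℂ)) = 2 := Complex.conj_ofNat 2
    rw [this]
    ring
  have e : ‖(4 : ℂ)‖ = 4 := by norm_num
  rw [h2, norm_mul, e]
  linarith

theorem t : Pool.Agent.H681R3.DS2.TaskTrans := by
  intro m hm f hf n z w hz hw
  set Q : (ℕ → ℂ) → ℂ := fun z =>
    ∑ i ∈ range n, ∑ j ∈ range n, mat m f i j * z i * conj (z j) with hQ
  have key : ∑ i ∈ range n, ∑ j ∈ range n, mat m f i j * z i * w j =
      1 / 4 * (Q (fun i => z i + conj (w i)) + Complex.I * Q (fun i => z i + Complex.I * conj (w i))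
        - Q (fun i => z i - conj (w i))
        - Complex.I * Q (fun i => z i - Complex.I * conj (w i))) := by
    simp only [hQ, mul_sum, ← sum_add_distrib, ← sum_sub_distrib]
    refine sum_congr rfl fun i _ => sum_congr rfl fun j _ => ?_
    simp only [map_add, map_sub, map_mul, Complex.conj_conj, Complex.conj_I]
    have hI : Complex.I * Complex.I = -1 := Complex.I_mul_I
    linear_combination (1 / 2 * mat m f i j * z i * w j - 1 / 2 * mat m f i j * conj (w i) * conj (z j)) * hI
  have b : ∀ (u v : ℂ), ‖u‖ ≤ 1 → ‖v‖ ≤ 1 → ‖u + v‖ ≤ 2 := by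
    intro u v h1 h2
    exact (norm_add_le _ _).trans (by linarith)
  have b' : ∀ (u v : ℂ), ‖u‖ ≤ 1 → ‖v‖ ≤ 1 → ‖u - v‖ ≤ 2 := by
    intro u v h1 h2
    exact (norm_sub_le _ _).trans (by linarith)
  have hw1 : ∀ i, ‖conj (w i)‖ ≤ 1 := fun i => by rw [RCLike.norm_conj]; exact hw i
  have hw2 : ∀ i, ‖Complex.I * conj (w i)‖ ≤ 1 := fun i => by
    rw [norm_mul, Complex.norm_I, one_mul]; exact hw1 i
  have q1 := quad2 hm f hf n (fun i => z i + conj (w i)) (fun i => b _ _ (hz i) (hw1 i))
  have q2 := quad2 hm f hf n (fun i => z i + Complex.I * conj (w i))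
    (fun i => b _ _ (hz i) (hw2 i))
  have q3 := quad2 hm f hf n (fun i => z i - conj (w i)) (fun i => b' _ _ (hz i) (hw1 i))
  have q4 := quad2 hm f hf n (fun i => z i - Complex.I * conj (w i))
    (fun i => b' _ _ (hz i) (hw2 i))
  rw [key, norm_mul]
  have e : ‖(1 / 4 : ℂ)‖ = 1 / 4 := by norm_num
  rw [e]
  have t1 := norm_sub_le (Q (fun i => z i + conj (w i)) +
    Complex.I * Q (fun i => z i + Complex.I * conj (w i)) - Q (fun i => z i - conj (w i)))
    (Complex.I * Q (fun i => z i - Complex.I * conj (w i)))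
  have t2 := norm_sub_le (Q (fun i => z i + conj (w i)) +
    Complex.I * Q (fun i => z i + Complex.I * conj (w i))) (Q (fun i => z i - conj (w i)))
  have t3 := norm_add_le (Q (fun i => z i + conj (w i)))
    (Complex.I * Q (fun i => z i + Complex.I * conj (w i)))
  rw [norm_mul, Complex.norm_I, one_mul] at t1 t3
  linarith

end Pool.Agent.H681R3.DS2.TTrans
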