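import Pool.Agent.H681R3.DS2.Asm2
import Pool.Agent.H681R3.DS.T_Khin
import Pool.Agent.H681R3.DS.T_Contr
import Pool.Agent.H681R3.DS.T_Sym
import Pool.Agent.H681R3.DS.T_Rect
import Pool.Agent.H681R3.DS.T_Real
import Pool.Agent.H681R3.DS.T_Fin
import Pool.Agent.H681R3.DS.T_OneStep
import Pool.Agent.H681R3.DS.T_Block
import Pool.Agent.H681R3.DS.T_Inv
import Pool.Agent.H681R3.DS2.T_Hier
import Pool.Agent.H681R3.DS2.T_U
import Pool.Agent.H681R3.DS2.T_Dist
import Pool.Agent.H681R3.DS2.T_Nested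
import Pool.Agent.H681R3.DS2.T_Phase
import Pool.Agent.H681R3.DS2.T_Trans
import Pool.Agent.H681R3.DS2.T_Mult
import Pool.Agent.H681R3.DS2.T_NS
import Pool.Agent.H681R3.DS2.T_Sub

set_option autoImplicit false

namespace Pool.Agent.H681R3.DS2
open Finset
open Pool.Agent.Results.MP_eb9c50_an.SidonNearZero
open Pool.Agent.H681R3.DS (Bdd Schur diffSet)

theorem oneStep : DS.TaskOneStep :=
  DS.TOneStep.t (DS.TFin.t (DS.TReal.t (DS.TRect.t DS.TKhin.t DS.TContr.t DS.TSym.t)))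

theorem hier : TaskHier := THier.t oneStep

theorem summable_lev (d : ℕ) (hd : 1 ≤ d) :
    Summable (fun i : ℕ => (1 / ((40 : ℝ) ^ d) ^ 2) ^ (Nat.log (40 ^ d) (i + 1))) := by
  have hB : 1 < 40 ^ d := Nat.one_lt_pow (by omega) (by norm_num)
  have h1 : Summable (fun i : ℕ => ((40 : ℝ) ^ d) ^ 2 * (1 / (((i + 1 : ℕ) : ℝ)) ^ 2)) :=
    ((summable_nat_add_iff 1).mpr (Real.summable_one_div_nat_pow.mpr (by norm_num))).mul_left _
  refine Summable.of_nonneg_of_le (fun i => by positivity) (fun i => ?_) h1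
  set B : ℝ := (40 : ℝ) ^ d with hBd
  have hB0 : 0 < B := by positivity
  set l := Nat.log (40 ^ d) (i + 1) with hl
  have h2 : i + 1 < (40 ^ d) ^ (l + 1) := Nat.lt_pow_succ_log_self hB (i + 1)
  have h3 : ((i + 1 : ℕ) : ℝ) ≤ B ^ l * B := by
    have : ((i + 1 : ℕ) : ℝ) < (((40 ^ d) ^ (l + 1) : ℕ) : ℝ) := by exact_mod_cast h2
    push_cast at this ⊢
    rw [pow_succ] at this
    exact this.le
  have h4 : (0 : ℝ) < ((i + 1 : ℕ) : ℝ) := by positivity
  rw [one_div, inv_pow, ← pow_mul, mul_comm 2 l, pow_mul]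
  rw [mul_one_div, inv_eq_one_div, div_le_div_iff₀ (by positivity) (by positivity), one_mul]
  calc (((i + 1 : ℕ) : ℝ)) ^ 2 ≤ (B ^ l * B) ^ 2 := by gcongr
    _ = B ^ 2 * (B ^ l) ^ 2 := by ring

theorem main (γ : ℝ) (hγ : 0 < γ) (m : ℕ → ℤ) (h0 : 0 < m 0)
    (hm : ∀ i : ℕ, 100 * ((i : ℝ) + 1) ^ γ * (m i : ℝ) ≤ (m (i + 1) : ℝ)) :
    (∀ (E : Set ℤ) (S : Finset UnitAddCircle) (δ : ℝ), 0 < δ →
      (∀ k ∈ E, k ∈ BohrSet S δ → k ≠ 0 → ∃ i j, k = m i - m j) → AutomaticContinuity E) ∧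
    (∀ (S : Finset UnitAddCircle) (δ : ℝ), 0 < δ →
      ¬ IsSidon ({k | ∃ i j, k = m i - m j} ∩ BohrSet S δ)) := by
  -- positivity
  have hpos : ∀ i, 0 < m i := by
    intro i
    induction i with
    | zero => exact h0
    | succ i ih =>
      have h1 := hm i
      have h2 : (0 : ℝ) < m i := by exact_mod_cast ih
      have h3 : (0 : ℝ) < 100 * ((i : ℝ) + 1) ^ γ * (m i : ℝ) := by positivity
      have h4 : (0 : ℝ) < (m (i + 1) : ℝ) := lt_of_lt_of_le h3 h1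
      exact_mod_cast h4
  obtain ⟨d0, hd0⟩ := exists_nat_gt (1 / γ)
  set d := d0 + 1 with hd
  have hd1 : 1 ≤ d := by omega
  have hdγ : 1 / (d : ℝ) ≤ γ := by
    rw [div_le_iff₀ (by positivity)]
    rw [div_lt_iff₀ hγ] at hd0
    rw [hd]
    push_cast
    nlinarith
  set L : ℕ → ℕ := fun i => Nat.log (40 ^ d) (i + 1) with hL
  have hlev : ∀ i, (40 : ℝ) ^ (L i) ≤ ((i : ℝ) + 1) ^ γ := by
    intro i
    have h1 : (40 ^ d) ^ (L i) ≤ i + 1 := Nat.pow_log_le_self (40 ^ d) (by omega)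
    have h2 : (((40 : ℝ) ^ (L i)) ^ d) ≤ (i : ℝ) + 1 := by
      have : (((40 ^ d) ^ (L i) : ℕ) : ℝ) ≤ ((i + 1 : ℕ) : ℝ) := by exact_mod_cast h1
      push_cast at this
      rw [← pow_mul, mul_comm, pow_mul]
      exact this
    calc (40 : ℝ) ^ (L i) = (((40 : ℝ) ^ (L i)) ^ d) ^ (1 / (d : ℝ)) := by
          rw [← Real.rpow_natCast (((40 : ℝ) ^ (L i))) d, ← Real.rpow_mul (by positivity),
            mul_one_div_cancel (by positivity), Real.rpow_one]
      _ ≤ ((i : ℝ) + 1) ^ (1 / (d : ℝ)) := by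
          apply Real.rpow_le_rpow (by positivity) h2 (by positivity)
      _ ≤ ((i : ℝ) + 1) ^ γ := by
          apply Real.rpow_le_rpow_of_exponent_le _ hdγ
          have : (0 : ℝ) ≤ i := by positivity
          linarith
  have hmL : FastL L m := by
    refine ⟨h0, fun i => ?_⟩
    have h1 := hm i
    have h2 : (0 : ℝ) < m i := by exact_mod_cast hpos i
    have h3 : 100 * (40 : ℝ) ^ (L i) * (m i : ℝ) ≤ (m (i + 1) : ℝ) := by
      refine le_trans ?_ h1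
      have := hlev i
      gcongr
    exact_mod_cast h3
  have hmF : Fast m := by
    refine ⟨h0, fun i => ?_⟩
    have h1 := hmL.2 i
    have h2 : (1 : ℤ) ≤ 40 ^ (L i) := one_le_pow₀ (by norm_num)
    have h3 := hpos i
    calc 100 * m i = 100 * 1 * m i := by ring
      _ ≤ 100 * 40 ^ (L i) * m i := by gcongr
      _ ≤ m (i + 1) := h1
  have hρ : (0 : ℝ) < 1 / ((40 : ℝ) ^ d) ^ 2 := by positivity
  have hρ2 : 40 * (1 / ((40 : ℝ) ^ d) ^ 2) ≤ 1 / 2 := by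
    have h1 : (40 : ℝ) ≤ 40 ^ d := le_self_pow₀ (by norm_num) (by omega)
    rw [mul_one_div, div_le_div_iff₀ (by positivity) (by norm_num)]
    nlinarith
  constructor
  · intro E S δ hδ hE
    refine ac_near L _ hρ hρ2 (summable_lev d hd1) hier TU.t DS.TBlock.t DS.TInv.t TDist.t
      (TPhase.t TNested.t) TTrans.t (TMult.t TTrans.t TDist.t) m hmF hmL E S δ hδ ?_
    intro k hk hkS hk0
    obtain ⟨i, j, hij⟩ := hE k hk hkS hk0
    refine ⟨i, j, ?_, hij⟩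
    rintro rfl
    exact hk0 (by rw [hij, sub_self])
  · intro S δ hδ h
    refine not_sidon_near (TNS.t TDist.t) TSub.t m hmF S δ hδ (fun f hf => h f (CE_mono ?_ hf))
    rintro k ⟨⟨i, j, _, hk⟩, hk2⟩
    exact ⟨⟨i, j, hk⟩, hk2⟩

end Pool.Agent.H681R3.DS2
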