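import Pool.Agent.H681R3.DS2.Defs

set_option autoImplicit false

/-! Nested intervals for simultaneous inhomogeneous approximation. -/

namespace Pool.Agent.H681R3.DS2.TNested
open Set

/-- the left end points -/
noncomputable def s (m : ℕ → ℤ) (θ : ℕ → ℝ) : ℕ → ℝ
  | 0 => θ 0 / (m 0 : ℝ)
  | i + 1 => (θ (i + 1) + (⌈(m (i + 1) : ℝ) * s m θ i - θ (i + 1)⌉ : ℤ)) / (m (i + 1) : ℝ)

theorem m_pos {L : ℕ → ℕ} {m : ℕ → ℤ} (h : FastL L m) (i : ℕ) : 0 < m i := by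
  induction i with
  | zero => exact h.1
  | succ i ih =>
    refine lt_of_lt_of_le ?_ (h.2 i)
    positivity

theorem s_spec {L : ℕ → ℕ} {m : ℕ → ℤ} (h : FastL L m) (θ : ℕ → ℝ) (i : ℕ) :
    ∃ k : ℤ, (m i : ℝ) * s m θ i = θ i + k := by
  have hm : (0 : ℝ) < m i := by exact_mod_cast m_pos h i
  cases i with
  | zero =>
    refine ⟨0, ?_⟩
    rw [s]
    field_simp
    simp
  | succ i =>
    refine ⟨⌈(m (i + 1) : ℝ) * s m θ i - θ (i + 1)⌉, ?_⟩
    rw [s]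
    field_simp

theorem s_step {L : ℕ → ℕ} {m : ℕ → ℤ} (h : FastL L m) (θ : ℕ → ℝ) (i : ℕ) :
    s m θ i ≤ s m θ (i + 1) ∧ s m θ (i + 1) ≤ s m θ i + 1 / (m (i + 1) : ℝ) := by
  have hm : (0 : ℝ) < m (i + 1) := by exact_mod_cast m_pos h (i + 1)
  have h1 := Int.le_ceil ((m (i + 1) : ℝ) * s m θ i - θ (i + 1))
  have h2 := (Int.ceil_lt_add_one ((m (i + 1) : ℝ) * s m θ i - θ (i + 1))).le
  have e : s m θ (i + 1) =
      (θ (i + 1) + (⌈(m (i + 1) : ℝ) * s m θ i - θ (i + 1)⌉ : ℤ)) / (m (i + 1) : ℝ) := by rw [s]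
  rw [e]
  constructor
  · rw [le_div_iff₀ hm]
    linarith
  · rw [div_le_iff₀ hm, add_mul, one_div, inv_mul_cancel₀ hm.ne']
    linarith

theorem t : Pool.Agent.H681R3.DS2.TaskNested := by
  intro L m h θ
  have hm : ∀ i, (0 : ℝ) < m i := fun i => by exact_mod_cast m_pos h i
  have hf : ∀ i, 100 * 40 ^ (L i) * (m i : ℝ) ≤ m (i + 1) := fun i => by exact_mod_cast h.2 i
  set g : ℕ → ℝ := fun i => s m θ i + 1 / (50 * 40 ^ (L i)) / (m i : ℝ) with hg
  have hmono : Monotone (s m θ) := monotone_nat_of_le_succ fun i => (s_step h θ i).1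
  have hanti : Antitone g := by
    apply antitone_nat_of_succ_le
    intro i
    have h1 := (s_step h θ i).2
    have hp : (1 : ℝ) ≤ 40 ^ (L (i + 1)) := one_le_pow₀ (by norm_num)
    have h2 : (1 : ℝ) / (50 * 40 ^ (L (i + 1))) ≤ 1 := by
      rw [div_le_one (by positivity)]
      linarith
    have h3 : (1 : ℝ) / (50 * 40 ^ (L (i + 1))) / (m (i + 1) : ℝ) ≤ 1 / (m (i + 1) : ℝ) :=
      div_le_div_of_nonneg_right h2 (hm _).le
    have h4 : (2 : ℝ) / (m (i + 1) : ℝ) ≤ 1 / (50 * 40 ^ (L i)) / (m i : ℝ) := by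
      rw [div_div, div_le_div_iff₀ (hm _) (by have := hm i; positivity)]
      have h5 := hf i
      linarith
    have h5 : (2 : ℝ) / (m (i + 1) : ℝ) = 1 / (m (i + 1) : ℝ) + 1 / (m (i + 1) : ℝ) := by ring
    simp only [hg]
    linarith
  have hle : s m θ ≤ g := by
    intro i
    have := hm i
    simp only [hg]
    have : 0 ≤ 1 / (50 * 40 ^ (L i)) / (m i : ℝ) := by positivity
    linarith
  have ha := hmono.ciSup_mem_iInter_Icc_of_antitone hanti hle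
  rw [mem_iInter] at ha
  refine ⟨⨆ i, s m θ i, fun i => ?_⟩
  obtain ⟨k, hk⟩ := s_spec h θ i
  obtain ⟨h1, h2⟩ := ha i
  refine ⟨k, (m i : ℝ) * ((⨆ i, s m θ i) - s m θ i), ?_, ?_, ?_⟩
  · exact mul_nonneg (hm i).le (sub_nonneg.2 h1)
  · have h3 : (⨆ i, s m θ i) - s m θ i ≤ 1 / (50 * 40 ^ (L i)) / (m i : ℝ) := by
      simp only [hg] at h2
      linarith
    have h4 := mul_le_mul_of_nonneg_left h3 (hm i).le
    rwa [mul_div_cancel₀ _ (hm i).ne'] at h4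
  · rw [← hk]
    ring

end Pool.Agent.H681R3.DS2.TNested
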